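import Pool.Agent.H121.FL.Iface
import Pool.Agent.H168.Y987.Op

/-! Part FL-OFF of helper121's project FL (MP_28b024_mp): the off-resonant fractional moment
inequality. -/

set_option autoImplicit false

open scoped BigOperators InnerProductSpace Topology ENNReal
open Filter MeasureTheory

namespace Pool.Agent.H71.FL

open Pool.Agent.H121.FL
open Pool.Agent.Y662.TR (LL Cf Mw dv hu clp clp_abs)
open Pool.Agent.H987.Z (Rs Gr)
open Pool.Agent.H987.Y (Lt Ker Op kf)
open Pool.Agent.H121.Z987 (HH wt Q)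

theorem ball_fin {d : ℕ} (a : Lt d) (R : ℕ) : {x : Lt d | nm (a - x) ≤ R}.Finite := by
  refine (Set.finite_Icc (fun i => a i - (R : ℤ)) (fun i => a i + (R : ℤ))).subset ?_
  intro x hx
  have h1 : ∀ i, ((a - x) i).natAbs ≤ R := fun i =>
    (Finset.single_le_sum (f := fun i => ((a - x) i).natAbs) (fun j _ => Nat.zero_le _)
      (Finset.mem_univ i)).trans hx
  constructor
  · intro i
    have := h1 i
    simp only [Pi.sub_apply] at this ⊢
    omega
  · intro i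
    have := h1 i
    simp only [Pi.sub_apply] at this ⊢
    omega

theorem cf_meas {d R : ℕ} {g : ℝ} {t φ : Lt d → Lt d → ℝ} {E : Lt d → ℝ} (hF : FB R t φ E g)
    (T : LL (Lt d) →L[ℂ] LL (Lt d)) (hT : Rs T) (lam : ℝ) (z : ℂ) (hz : z.im ≠ 0) (y a : Lt d) :
    Measurable fun ω : Lt d → ℝ => cf φ T lam ω z y a := by
  have h1 : ∀ ω : Lt d → ℝ, cf φ T lam ω z y a =
      ∑ x ∈ (ball_fin a R).toFinset, ((φ a x : ℝ) : ℂ) * Gr (HH T lam ω) z x y := by
    intro ω
    rw [cf]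
    apply tsum_eq_sum
    intro x hx
    rw [Set.Finite.mem_toFinset] at hx
    have h2 : φ a x = 0 := by
      by_contra h
      exact hx (hF.rg a x h)
    rw [h2, Complex.ofReal_zero, zero_mul]
  simp_rw [h1]
  refine Finset.measurable_sum _ fun x _ => ?_
  exact (Pool.Agent.H121.Z987.Gr_meas1 T hT lam z x y hz).const_mul _

theorem phi_le {d R : ℕ} {g : ℝ} {t φ : Lt d → Lt d → ℝ} {E : Lt d → ℝ} (hF : FB R t φ E g)
    (a x : Lt d) : |φ a x| ≤ 1 := by
  have h1 := hF.on a a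
  rw [if_pos rfl] at h1
  have h2 := le_hasSum h1 x fun j _ => mul_self_nonneg (φ a j)
  rw [abs_le_one_iff_mul_self_le_one]
  exact h2

/-- the off-resonant inequality -/
theorem off (heqn : S_eqn) : S_off := by
  intro d R r g h s b t φ B E hg hs hs1 hFB hK hb hB μ _ lam hlam y a z hz hE
  obtain ⟨⟨h', hK'⟩, hva, hba, heq⟩ := heqn d R r g h b t φ B E hFB hK hb hB
  have hT : Rs (Op (tB t B)) := (Pool.Agent.H168.Y987.op (Lt d) (tB t B) h' hK').2.2.1
  have hm : ∀ a', Measurable fun ω : Lt d → ℝ => ‖cf φ (Op (tB t B)) lam ω z y a'‖ₑ ^ s :=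
    fun a' => ((cf_meas hFB _ hT lam z hz.ne' y a').enorm).pow_const s
  set nb2 : ℝ := (nb d R : ℝ) ^ 2 with hnb
  have hnb0 : 0 ≤ nb2 := by positivity
  set Kc : ℝ≥0∞ := ENNReal.ofReal (lam ^ s + (b * nb2) ^ s) with hKc
  -- pointwise inequality
  have key : ∀ ω : Lt d → ℝ, ‖cf φ (Op (tB t B)) lam ω z y a‖ₑ ^ s ≤
      ENNReal.ofReal ((2 / g) ^ s) * ((if nm (a - y) ≤ R then 1 else 0) +
        ∑' a', (if nm (a - a') ≤ 2 * R + r then Kc else 0) *
          ‖cf φ (Op (tB t B)) lam ω z y a'‖ₑ ^ s) := by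
    intro ω
    set v : Lt d → ℝ := fun x => clp lam (lam * ω x) with hv
    have hvb : ∀ x, |v x| ≤ lam := fun x => by
      have := clp_abs lam (lam * ω x)
      rwa [abs_of_pos hlam] at this
    set W : Lt d → ℝ := fun a' => va φ v a a' + ba φ B a a' with hW
    have hWb : ∀ a', ‖((W a' : ℝ) : ℂ)‖ₑ ^ s ≤ if nm (a - a') ≤ 2 * R + r then Kc else 0 := by
      intro a'
      obtain ⟨h1, h2⟩ := hva lam v a a' hlam.le hvb
      obtain ⟨h3, h4⟩ := hba a a'
      split_ifs with hc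
      · rw [Pool.Agent.H121.Z987.enorm_rpow _ s hs.le]
        apply ENNReal.ofReal_le_ofReal
        rw [Complex.norm_real, Real.norm_eq_abs]
        calc |W a'| ^ s ≤ (lam + b * nb2) ^ s := by
              apply Real.rpow_le_rpow (abs_nonneg _) _ hs.le
              exact (abs_add_le _ _).trans (add_le_add h1 h3)
          _ ≤ lam ^ s + (b * nb2) ^ s :=
              Real.rpow_add_le_add_rpow hlam.le (mul_nonneg hb hnb0) hs.le hs1.le
      · rw [not_le] at hc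
        have h5 : W a' = 0 := by
          rw [hW]
          simp only
          rw [h2 (by omega), h4 hc, add_zero]
        rw [h5, Complex.ofReal_zero, enorm_zero, ENNReal.zero_rpow_of_pos hs]
    have h1 := heq lam ω z y a hlam hz.ne'
    have h2 : ((E a : ℂ) - z) * cf φ (Op (tB t B)) lam ω z y a = ((φ a y : ℝ) : ℂ) -
        ∑' a', ((W a' : ℝ) : ℂ) * cf φ (Op (tB t B)) lam ω z y a' := by
      rw [← h1]
      simp only [hW, hv]
      ring
    have h3 : ‖(E a : ℂ) - z‖ₑ ^ s * ‖cf φ (Op (tB t B)) lam ω z y a‖ₑ ^ s ≤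
        ‖((φ a y : ℝ) : ℂ)‖ₑ ^ s + ∑' a', ‖((W a' : ℝ) : ℂ)‖ₑ ^ s *
          ‖cf φ (Op (tB t B)) lam ω z y a'‖ₑ ^ s := by
      rw [← ENNReal.mul_rpow_of_nonneg _ _ hs.le, ← enorm_mul, h2]
      have h4 : ‖((φ a y : ℝ) : ℂ) - ∑' a', ((W a' : ℝ) : ℂ) * cf φ (Op (tB t B)) lam ω z y a'‖ₑ ≤
          ‖((φ a y : ℝ) : ℂ)‖ₑ + ∑' a', ‖((W a' : ℝ) : ℂ)‖ₑ *
            ‖cf φ (Op (tB t B)) lam ω z y a'‖ₑ := by
        refine (enorm_sub_le).trans ?_
        gcongr
        refine enorm_tsum_le_tsum_enorm.trans (le_of_eq ?_)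
        exact tsum_congr fun u => enorm_mul _ _
      calc _ ≤ (‖((φ a y : ℝ) : ℂ)‖ₑ + ∑' a', ‖((W a' : ℝ) : ℂ)‖ₑ *
            ‖cf φ (Op (tB t B)) lam ω z y a'‖ₑ) ^ s := by gcongr
        _ ≤ ‖((φ a y : ℝ) : ℂ)‖ₑ ^ s + (∑' a', ‖((W a' : ℝ) : ℂ)‖ₑ *
            ‖cf φ (Op (tB t B)) lam ω z y a'‖ₑ) ^ s :=
            ENNReal.rpow_add_le_add_rpow _ _ hs.le hs1.le
        _ ≤ ‖((φ a y : ℝ) : ℂ)‖ₑ ^ s + ∑' a', (‖((W a' : ℝ) : ℂ)‖ₑ *
            ‖cf φ (Op (tB t B)) lam ω z y a'‖ₑ) ^ s := by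
            gcongr
            exact Pool.Agent.H121.Z987.rpow_tsum_le _ s hs hs1.le
        _ = _ := by
            congr 1
            refine tsum_congr fun u => ?_
            rw [ENNReal.mul_rpow_of_nonneg _ _ hs.le]
    have h4 : ‖((φ a y : ℝ) : ℂ)‖ₑ ^ s ≤ if nm (a - y) ≤ R then 1 else 0 := by
      split_ifs with hc
      · rw [Pool.Agent.H121.Z987.enorm_rpow _ s hs.le, Complex.norm_real, Real.norm_eq_abs,
          ← ENNReal.ofReal_one]
        exact ENNReal.ofReal_le_ofReal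
          (Real.rpow_le_one (abs_nonneg _) (phi_le hFB a y) hs.le)
      · have h5 : φ a y = 0 := by
          by_contra h
          exact hc (hFB.rg a y h)
        rw [h5, Complex.ofReal_zero, enorm_zero, ENNReal.zero_rpow_of_pos hs]
    have h5 : 1 ≤ ENNReal.ofReal ((2 / g) ^ s) * ‖(E a : ℂ) - z‖ₑ ^ s := by
      rw [Pool.Agent.H121.Z987.enorm_rpow _ s hs.le, ← ENNReal.ofReal_mul (by positivity),
        ← Real.mul_rpow (by positivity) (norm_nonneg _), ← ENNReal.ofReal_one]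
      apply ENNReal.ofReal_le_ofReal
      apply Real.one_le_rpow _ hs.le
      have h6 : g / 2 ≤ ‖(E a : ℂ) - z‖ := by
        refine hE.trans ?_
        have := Complex.abs_re_le_norm ((E a : ℂ) - z)
        simpa using this
      calc (1 : ℝ) = 2 / g * (g / 2) := by field_simp
        _ ≤ _ := by gcongr
    calc ‖cf φ (Op (tB t B)) lam ω z y a‖ₑ ^ s
        = 1 * ‖cf φ (Op (tB t B)) lam ω z y a‖ₑ ^ s := (one_mul _).symm
      _ ≤ (ENNReal.ofReal ((2 / g) ^ s) * ‖(E a : ℂ) - z‖ₑ ^ s) *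
          ‖cf φ (Op (tB t B)) lam ω z y a‖ₑ ^ s := by gcongr
      _ = ENNReal.ofReal ((2 / g) ^ s) * (‖(E a : ℂ) - z‖ₑ ^ s *
          ‖cf φ (Op (tB t B)) lam ω z y a‖ₑ ^ s) := mul_assoc _ _ _
      _ ≤ ENNReal.ofReal ((2 / g) ^ s) * (‖((φ a y : ℝ) : ℂ)‖ₑ ^ s +
          ∑' a', ‖((W a' : ℝ) : ℂ)‖ₑ ^ s * ‖cf φ (Op (tB t B)) lam ω z y a'‖ₑ ^ s) := by gcongr
      _ ≤ _ := by
          gcongr with a'
          exact hWb a'
  unfold fa
  calc ∫⁻ ω, ‖cf φ (Op (tB t B)) lam ω z y a‖ₑ ^ s ∂(Measure.infinitePi fun _ : Lt d => μ)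
      ≤ ∫⁻ ω, ENNReal.ofReal ((2 / g) ^ s) * ((if nm (a - y) ≤ R then 1 else 0) +
        ∑' a', (if nm (a - a') ≤ 2 * R + r then Kc else 0) *
          ‖cf φ (Op (tB t B)) lam ω z y a'‖ₑ ^ s) ∂(Measure.infinitePi fun _ : Lt d => μ) :=
        lintegral_mono key
    _ = ENNReal.ofReal ((2 / g) ^ s) * ((if nm (a - y) ≤ R then 1 else 0) +
        ∑' a', (if nm (a - a') ≤ 2 * R + r then Kc else 0) *
          ∫⁻ ω, ‖cf φ (Op (tB t B)) lam ω z y a'‖ₑ ^ s
            ∂(Measure.infinitePi fun _ : Lt d => μ)) := by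
        rw [lintegral_const_mul' _ _ ENNReal.ofReal_ne_top, lintegral_add_left measurable_const,
          lintegral_const, measure_univ, mul_one,
          lintegral_tsum fun u => ((hm u).const_mul _).aemeasurable]
        congr 2
        refine tsum_congr fun u => ?_
        rw [lintegral_const_mul _ (hm u)]
    _ = _ := by
        congr 2
        rw [← ENNReal.tsum_mul_left]
        refine tsum_congr fun u => ?_
        split_ifs
        · rfl
        · rw [zero_mul, mul_zero]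

end Pool.Agent.H71.FL
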